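import Mathlib
import Pool.Agent.H709R3.Fock

set_option autoImplicit false
set_option linter.unusedSectionVars false

/-!
Products of linear forms indexed by finite sets in Fock space, and the expansion of their inner
products.
-/

namespace Pool.Agent.H709K

open MvPolynomial ComplexConjugate Pool.Agent.H709R3

variable {ι : Type*} [Fintype ι] [DecidableEq ι]
variable {κ : Type*} [DecidableEq κ]
variable {μ : Type*} [DecidableEq μ]

/-- product of the linear forms with index in `S`. -/
noncomputable def PL (u : κ → ι → ℂ) (S : Finset κ) : MvPolynomial ι ℂ := ∏ i ∈ S, ell (u i)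

lemma PL_empty (u : κ → ι → ℂ) : PL u ∅ = 1 := by simp [PL]

lemma PL_insert (u : κ → ι → ℂ) {a : κ} {S : Finset κ} (h : a ∉ S) :
    PL u (insert a S) = ell (u a) * PL u S := by
  unfold PL; rw [Finset.prod_insert h]

lemma ann_PL (w : ι → ℂ) (v : κ → ι → ℂ) (T : Finset κ) :
    ann w (PL v T) = ∑ j ∈ T, dot w (v j) • PL v (T.erase j) := by
  induction T using Finset.induction_on with
  | empty => simp [PL_empty]
  | insert a T ha ih =>
    rw [PL_insert v ha, ann_ell_mul, Finset.sum_insert ha, Finset.erase_insert ha, ih,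
      Finset.mul_sum]
    congr 1
    refine Finset.sum_congr rfl fun j hj => ?_
    have hja : j ≠ a := fun h => ha (h ▸ hj)
    rw [Finset.erase_insert_of_ne (Ne.symm hja), PL_insert v (by
      intro h; exact ha (Finset.mem_of_mem_erase h)), mul_smul_comm]

lemma ip_one_PL (v : κ → ι → ℂ) (T : Finset κ) :
    ip (1 : MvPolynomial ι ℂ) (PL v T) = if T = ∅ then 1 else 0 := by
  rcases Finset.eq_empty_or_nonempty T with h | ⟨a, ha⟩
  · subst h
    rw [PL_empty, if_pos rfl]
    rw [ip_eq_sum (s := {0}) (by
      rw [← C_1]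
      exact support_monomial_subset), Finset.sum_singleton]
    simp [fac]
  · rw [if_neg (Finset.ne_empty_of_mem ha), ← Finset.insert_erase ha,
      PL_insert v (Finset.notMem_erase a T), ip_mul_ell, ann_one, ip_zero_left]

/-- inner products of products only depend on the Gram matrix (with column scalings). -/
lemma ip_scale {ι' : Type*} [Fintype ι'] [DecidableEq ι'] (u : κ → ι → ℂ) (v : μ → ι → ℂ)
    (u' : κ → ι' → ℂ) (v' : μ → ι' → ℂ) (c : μ → ℂ) (S : Finset κ) :
    ∀ T : Finset μ, (∀ i ∈ S, ∀ j ∈ T, dot (u i) (v j) = c j * dot (u' i) (v' j)) →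
      ip (PL u S) (PL v T) = (∏ j ∈ T, c j) * ip (PL u' S) (PL v' T) := by
  induction S using Finset.induction_on with
  | empty =>
    intro T _
    rw [PL_empty, PL_empty, ip_one_PL, ip_one_PL]
    by_cases hT : T = ∅
    · subst hT; simp
    · simp [hT]
  | insert a S ha ih =>
    intro T hT
    rw [PL_insert u ha, PL_insert u' ha, ip_ell_mul, ip_ell_mul, ann_PL, ann_PL, ip_sum_right,
      ip_sum_right, Finset.mul_sum]
    refine Finset.sum_congr rfl fun j hj => ?_
    rw [ip_smul_right, ip_smul_right, ih (T.erase j) (fun i hi k hk =>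
      hT i (Finset.mem_insert_of_mem hi) k (Finset.mem_of_mem_erase hk)),
      hT a (Finset.mem_insert_self a S) j hj, ← Finset.mul_prod_erase T c hj]
    ring

lemma ip_card (u : κ → ι → ℂ) (v : μ → ι → ℂ) (S : Finset κ) :
    ∀ T : Finset μ, S.card ≠ T.card → ip (PL u S) (PL v T) = 0 := by
  induction S using Finset.induction_on with
  | empty =>
    intro T hT
    rw [PL_empty, ip_one_PL, if_neg]
    rintro rfl
    exact hT rfl
  | insert a S ha ih =>
    intro T hT
    rw [PL_insert u ha, ip_ell_mul, ann_PL, ip_sum_right]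
    refine Finset.sum_eq_zero fun j hj => ?_
    rw [ip_smul_right, ih (T.erase j), mul_zero]
    rw [Finset.card_insert_of_notMem ha] at hT
    rw [Finset.card_erase_of_mem hj]
    have := Finset.card_pos.mpr ⟨j, hj⟩
    omega

/-- the Laplace expansion in Fock space. -/
lemma ip_mul_PL (u : κ → ι → ℂ) (v : μ → ι → ℂ) (q : MvPolynomial ι ℂ) (S : Finset κ) :
    ∀ T : Finset μ, ip (PL u S * q) (PL v T) =
      ∑ U ∈ T.powerset, ip (PL u S) (PL v U) * ip q (PL v (T \ U)) := by
  induction S using Finset.induction_on with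
  | empty =>
    intro T
    rw [PL_empty, one_mul, Finset.sum_eq_single ∅]
    · rw [ip_one_PL, if_pos rfl, one_mul, Finset.sdiff_empty]
    · intro U _ hU
      rw [ip_one_PL, if_neg hU, zero_mul]
    · intro h; exact absurd (Finset.empty_mem_powerset T) h
  | insert a S ha ih =>
    intro T
    rw [PL_insert u ha, mul_assoc, ip_ell_mul, ann_PL, ip_sum_right]
    have h1 : ∀ j ∈ T, ip (PL u S * q) (dot (u a) (v j) • PL v (T.erase j)) =
        ∑ U ∈ (T.erase j).powerset, dot (u a) (v j) * (ip (PL u S) (PL v U) *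
          ip q (PL v ((T.erase j) \ U))) := by
      intro j _
      rw [ip_smul_right, ih, Finset.mul_sum]
    rw [Finset.sum_congr rfl h1]
    have h2 : ∀ U ∈ T.powerset, ip (ell (u a) * PL u S) (PL v U) * ip q (PL v (T \ U)) =
        ∑ j ∈ U, dot (u a) (v j) * (ip (PL u S) (PL v (U.erase j)) * ip q (PL v (T \ U))) := by
      intro U _
      rw [ip_ell_mul, ann_PL, ip_sum_right, Finset.sum_mul]
      refine Finset.sum_congr rfl fun j _ => ?_
      rw [ip_smul_right]; ring
    rw [Finset.sum_congr rfl h2, Finset.sum_sigma', Finset.sum_sigma']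
    refine Finset.sum_bij' (fun x _ => ⟨insert x.1 x.2, x.1⟩) (fun y _ => ⟨y.2, y.1.erase y.2⟩)
      ?_ ?_ ?_ ?_ ?_
    · rintro ⟨j, U⟩ h
      simp only [Finset.mem_sigma, Finset.mem_powerset] at h ⊢
      refine ⟨?_, Finset.mem_insert_self _ _⟩
      intro x hx
      rcases Finset.mem_insert.mp hx with rfl | hx
      · exact h.1
      · exact Finset.mem_of_mem_erase (h.2 hx)
    · rintro ⟨U, j⟩ h
      simp only [Finset.mem_sigma, Finset.mem_powerset] at h ⊢
      exact ⟨h.1 h.2, Finset.erase_subset_erase _ h.1⟩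
    · rintro ⟨j, U⟩ h
      simp only [Finset.mem_sigma, Finset.mem_powerset] at h ⊢
      have hj : j ∉ U := fun hj => Finset.notMem_erase j T (h.2 hj)
      rw [Finset.erase_insert hj]
    · rintro ⟨U, j⟩ h
      simp only [Finset.mem_sigma, Finset.mem_powerset] at h ⊢
      rw [Finset.insert_erase h.2]
    · rintro ⟨j, U⟩ h
      simp only [Finset.mem_sigma, Finset.mem_powerset] at h ⊢
      have hj : j ∉ U := fun hj => Finset.notMem_erase j T (h.2 hj)
      have e : (T.erase j) \ U = T \ insert j U := by
        ext x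
        simp only [Finset.mem_sdiff, Finset.mem_erase, Finset.mem_insert]
        tauto
      rw [Finset.erase_insert hj, e]

end Pool.Agent.H709K
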