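import Mathlib
import Pool.Agent.H709K.A

set_option autoImplicit false
set_option linter.unusedSectionVars false

/-!
Trace inequality and the block coefficients.
-/

namespace Pool.Agent.H709K

open MvPolynomial ComplexConjugate Pool.Agent.H709R3 Matrix
open scoped ComplexOrder

variable {ι : Type*} [Fintype ι] [DecidableEq ι]

/-- Gram matrices of the Fock inner product are positive semidefinite. -/
lemma gram_psd {J : Type*} [Fintype J] [DecidableEq J] (f : J → MvPolynomial ι ℂ) :
    (Matrix.of fun S T => ip (f S) (f T)).PosSemidef := by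
  refine Matrix.PosSemidef.of_dotProduct_mulVec_nonneg ?_ ?_
  · ext S T
    simp only [Matrix.conjTranspose_apply, Matrix.of_apply]
    exact ip_conj (f T) (f S)
  · intro x
    have h : star x ⬝ᵥ (Matrix.of fun S T => ip (f S) (f T)) *ᵥ x =
        ip (∑ S, x S • f S) (∑ S, x S • f S) := by
      simp only [dotProduct, Matrix.mulVec, Matrix.of_apply, Pi.star_apply]
      rw [ip_sum_left]
      refine Finset.sum_congr rfl fun S _ => ?_
      rw [ip_smul_left, ip_sum_right, Finset.mul_sum, Finset.mul_sum]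
      refine Finset.sum_congr rfl fun T _ => ?_
      rw [ip_smul_right, RCLike.star_def]
      ring
    rw [h, ip_self]
    exact_mod_cast nrm_nonneg _

/-- for hermitian `H`, `tr(H²) ≥ (tr H)²/N`. -/
lemma trace_sq_hermitian {J : Type*} [Fintype J] [DecidableEq J] (H : Matrix J J ℂ)
    (hH : H.IsHermitian) :
    ∃ f : ℝ, (H * H).trace = (f : ℂ) ∧ (H.trace).re ^ 2 ≤ (Fintype.card J : ℝ) * f := by
  refine ⟨∑ i, ∑ j, Complex.normSq (H i j), ?_, ?_⟩
  · rw [Matrix.trace]
    push_cast
    refine Finset.sum_congr rfl fun i _ => ?_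
    rw [Matrix.diag_apply, Matrix.mul_apply]
    refine Finset.sum_congr rfl fun j _ => ?_
    rw [← Complex.mul_conj]
    congr 1
    rw [← hH.apply i j, RCLike.star_def, Complex.conj_conj]
  · have h1 : (H.trace).re = ∑ i, (H i i).re := by
      rw [Matrix.trace, Complex.re_sum]; rfl
    rw [h1]
    have h2 := Finset.sum_mul_sq_le_sq_mul_sq Finset.univ (fun _ : J => (1 : ℝ))
      (fun i => (H i i).re)
    simp only [one_mul, one_pow, Finset.sum_const, Finset.card_univ, nsmul_eq_mul, mul_one] at h2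
    refine h2.trans (mul_le_mul_of_nonneg_left ?_ (by positivity))
    refine Finset.sum_le_sum fun i _ => ?_
    have h3 : Complex.normSq (H i i) ≤ ∑ j, Complex.normSq (H i j) :=
      Finset.single_le_sum (f := fun j => Complex.normSq (H i j))
        (fun j _ => Complex.normSq_nonneg _) (Finset.mem_univ i)
    refine le_trans ?_ h3
    rw [Complex.normSq_apply]
    nlinarith [mul_self_nonneg (H i i).im]

open scoped MatrixOrder in
/-- the trace inequality. -/
lemma trace_ineq {J : Type*} [Fintype J] [DecidableEq J] (A P : Matrix J J ℂ)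
    (hA : A.PosSemidef) (hP : P.IsHermitian) :
    ∃ f : ℝ, ((A * P) * (A * P)).trace = (f : ℂ) ∧
      ((A * P).trace).re ^ 2 ≤ (Fintype.card J : ℝ) * f := by
  obtain ⟨C, hC⟩ : ∃ C : Matrix J J ℂ, A = Cᴴ * C := by
    have h0 : (0 : Matrix J J ℂ) ≤ A := hA.nonneg
    obtain ⟨C, hC⟩ := CStarAlgebra.nonneg_iff_eq_star_mul_self.mp h0
    exact ⟨C, hC⟩
  have hH : (C * P * Cᴴ).IsHermitian := by
    unfold Matrix.IsHermitian
    rw [Matrix.conjTranspose_mul, Matrix.conjTranspose_mul, Matrix.conjTranspose_conjTranspose,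
      hP.eq, Matrix.mul_assoc]
  obtain ⟨f, hf1, hf2⟩ := trace_sq_hermitian (C * P * Cᴴ) hH
  refine ⟨f, ?_, ?_⟩
  · rw [← hf1, hC]
    rw [show Cᴴ * C * P * (Cᴴ * C * P) = Cᴴ * (C * P * Cᴴ * C * P) by
      simp only [Matrix.mul_assoc], Matrix.trace_mul_comm]
    simp only [Matrix.mul_assoc]
  · rw [hC, Matrix.mul_assoc Cᴴ C P, Matrix.trace_mul_comm]
    exact hf2

end Pool.Agent.H709K
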