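import Mathlib
import Pool.Agent.H709K.B

set_option autoImplicit false
set_option linter.unusedSectionVars false

/-!
The permanent of the Kronecker product with a `2 × 2` matrix.
-/

namespace Pool.Agent.H709K

open MvPolynomial ComplexConjugate Pool.Agent.H709R3 Matrix
open scoped ComplexOrder

theorem permanent_submatrix_equiv {κ κ' : Type*} [Fintype κ] [DecidableEq κ] [Fintype κ']
    [DecidableEq κ'] (e : κ ≃ κ') (M : Matrix κ' κ' ℂ) :
    (M.submatrix e e).permanent = M.permanent := by
  unfold Matrix.permanent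
  apply Fintype.sum_equiv (Equiv.permCongr e)
  intro σ
  apply Fintype.prod_equiv e
  intro i
  rw [Equiv.permCongr_apply, Equiv.symm_apply_apply, Matrix.submatrix_apply]

variable {ι : Type*} [Fintype ι] [DecidableEq ι]

theorem wick' {κ : Type*} [Fintype κ] [DecidableEq κ] (u v : κ → ι → ℂ) :
    ip (PL u Finset.univ) (PL v Finset.univ) =
      (Matrix.of fun i j => dot (u i) (v j)).permanent := by
  let e := Fintype.equivFin κ
  have h := wick (fun i => u (e.symm i)) (fun i => v (e.symm i))
  have h1 : ∀ z : κ → ι → ℂ, PL z Finset.univ = ∏ i, ell (z (e.symm i)) := by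
    intro z
    exact (Equiv.prod_comp e.symm (fun i => ell (z i))).symm
  rw [h1 u, h1 v, h, ← permanent_submatrix_equiv e.symm (Matrix.of fun i j => dot (u i) (v j))]
  rfl

section coeff

variable {n : ℕ} (w : Fin n → ι → ℂ)

/-- the off-diagonal coefficients. -/
noncomputable def hh (S' S : Finset (Fin n)) : ℂ := ip (PL w S' * PL w Sᶜ) (PL w Finset.univ)

lemma hh_diag (S : Finset (Fin n)) : hh w S S = ip (PL w Finset.univ) (PL w Finset.univ) := by
  unfold hh
  congr 1
  exact Finset.prod_mul_prod_compl S (fun i => ell (w i))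

lemma PL_disjSum (S T : Finset (Fin n)) :
    PL (Sum.elim w w) (S.disjSum T) = PL w S * PL w T := by
  unfold PL
  rw [Finset.prod_disjSum]
  rfl

lemma hh_card (S' S : Finset (Fin n)) (h : S'.card ≠ S.card) : hh w S' S = 0 := by
  unfold hh
  rw [← PL_disjSum, ip_card]
  rw [Finset.card_disjSum, Finset.card_compl, Finset.card_univ]
  have := S.card_le_univ
  omega

theorem block_coeff (m : ℕ) (hm : m ≤ n) :
    ∃ f : ℝ, (∑ S ∈ Finset.powersetCard m (Finset.univ : Finset (Fin n)),
      ∑ S' ∈ Finset.powersetCard m (Finset.univ : Finset (Fin n)), hh w S S' * hh w S' S) = (f : ℂ) ∧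
      (n.choose m : ℝ) * (nrm (PL w Finset.univ)) ^ 2 ≤ f := by
  classical
  let J := {S : Finset (Fin n) // S ∈ Finset.powersetCard m (Finset.univ : Finset (Fin n))}
  let A : Matrix J J ℂ := Matrix.of fun S T => ip (PL w S.1) (PL w T.1)
  let P : Matrix J J ℂ := Matrix.of fun U S => ip (PL w (S.1)ᶜ) (PL w (U.1)ᶜ)
  have hA : A.PosSemidef := gram_psd (fun S : J => PL w S.1)
  have hP : P.IsHermitian := by
    ext S T
    exact ip_conj (PL w (S.1)ᶜ) (PL w (T.1)ᶜ)
  have hAP : ∀ S' S : J, (A * P) S' S = hh w S'.1 S.1 := by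
    intro S' S
    rw [Matrix.mul_apply]
    unfold hh
    rw [ip_mul_PL, Finset.powerset_univ]
    have e1 : ∑ U : J, A S' U * P U S = ∑ U ∈ Finset.powersetCard m (Finset.univ : Finset (Fin n)),
        ip (PL w S'.1) (PL w U) * ip (PL w (S.1)ᶜ) (PL w (Finset.univ \ U)) := by
      rw [← Finset.sum_coe_sort (Finset.powersetCard m (Finset.univ : Finset (Fin n)))
        (fun U => ip (PL w S'.1) (PL w U) * ip (PL w (S.1)ᶜ) (PL w (Finset.univ \ U)))]
      rfl
    rw [e1]
    refine Finset.sum_subset (Finset.subset_univ _) fun U _ hU => ?_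
    rw [ip_card, zero_mul]
    intro h
    apply hU
    rw [Finset.mem_powersetCard]
    refine ⟨Finset.subset_univ _, ?_⟩
    rw [← h]
    exact (Finset.mem_powersetCard.mp S'.2).2
  obtain ⟨f, hf1, hf2⟩ := trace_ineq A P hA hP
  have hcard : Fintype.card J = n.choose m := by
    rw [Fintype.card_coe, Finset.card_powersetCard, Finset.card_univ, Fintype.card_fin]
  refine ⟨f, ?_, ?_⟩
  · rw [← hf1, Matrix.trace]
    rw [← Finset.sum_coe_sort (Finset.powersetCard m (Finset.univ : Finset (Fin n)))
      (fun S => ∑ S' ∈ Finset.powersetCard m (Finset.univ : Finset (Fin n)),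
        hh w S S' * hh w S' S)]
    refine Finset.sum_congr rfl fun S _ => ?_
    rw [Matrix.diag_apply, Matrix.mul_apply,
      ← Finset.sum_coe_sort (Finset.powersetCard m (Finset.univ : Finset (Fin n)))
      (fun S' => hh w S.1 S' * hh w S' S.1)]
    refine Finset.sum_congr rfl fun S' _ => ?_
    rw [hAP, hAP]
  · have htr : (A * P).trace = (n.choose m : ℂ) * (nrm (PL w Finset.univ) : ℂ) := by
      rw [Matrix.trace]
      have : ∀ S : J, (A * P).diag S = (nrm (PL w Finset.univ) : ℂ) := by
        intro S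
        rw [Matrix.diag_apply, hAP, hh_diag, ip_self]
      rw [Finset.sum_congr rfl (fun S _ => this S), Finset.sum_const, Finset.card_univ, hcard,
        nsmul_eq_mul]
    rw [htr, hcard] at hf2
    have h3 : ((n.choose m : ℂ) * (nrm (PL w Finset.univ) : ℂ)).re =
        (n.choose m : ℝ) * nrm (PL w Finset.univ) := by
      rw [← Complex.ofReal_natCast, ← Complex.ofReal_mul, Complex.ofReal_re]
    rw [h3] at hf2
    have hpos : (0 : ℝ) < (n.choose m : ℝ) := by exact_mod_cast Nat.choose_pos hm
    have h4 : (n.choose m : ℝ) * ((n.choose m : ℝ) * (nrm (PL w Finset.univ)) ^ 2) ≤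
        (n.choose m : ℝ) * f := by
      refine le_trans (le_of_eq ?_) hf2
      ring
    exact le_of_mul_le_mul_left h4 hpos

end coeff

end Pool.Agent.H709K
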