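import Mathlib
import Pool.Agent.H709K.C

set_option autoImplicit false
set_option linter.unusedSectionVars false

/-!
The permanent of the Kronecker product with a `2 × 2` matrix: the inequality.
-/

namespace Pool.Agent.H709K

open MvPolynomial ComplexConjugate Pool.Agent.H709R3 Matrix
open scoped ComplexOrder

open scoped MatrixOrder in
lemma exists_factor {m : ℕ} (A : Matrix (Fin m) (Fin m) ℂ) (hA : A.PosSemidef) :
    ∃ b : Fin m → Fin m → ℂ, ∀ i j, A i j = dot (b i) (b j) := by
  obtain ⟨B, hB⟩ := CStarAlgebra.nonneg_iff_eq_star_mul_self.mp hA.nonneg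
  refine ⟨fun i k => B k i, fun i j => ?_⟩
  rw [hB, Matrix.mul_apply]
  unfold dot
  refine Finset.sum_congr rfl fun k _ => ?_
  rw [Matrix.star_apply]
  rfl

/-- the index equivalence. -/
def eqv (n : ℕ) : Fin n ⊕ Fin n ≃ Fin n × Fin 2 where
  toFun x := Sum.elim (fun i => (i, 0)) (fun i => (i, 1)) x
  invFun p := if p.2 = 0 then Sum.inl p.1 else Sum.inr p.1
  left_inv := by rintro (i | i) <;> simp
  right_inv := by
    rintro ⟨i, a⟩
    fin_cases a <;> simp

section main

variable {n : ℕ} (A : Matrix (Fin n) (Fin n) ℂ) (B : Matrix (Fin 2) (Fin 2) ℂ)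
variable {ι : Type*} [Fintype ι] [DecidableEq ι] (w : Fin n → ι → ℂ)

/-- the block matrix. -/
def MM : Matrix (Fin n ⊕ Fin n) (Fin n ⊕ Fin n) ℂ := (Matrix.kronecker A B).submatrix (eqv n) (eqv n)

lemma row_expansion (hw : ∀ i j, A i j = dot (w i) (w j)) (a : Fin 2)
    (f : Fin n → Fin n ⊕ Fin n) (hf : ∀ i, eqv n (f i) = (i, a)) (S T : Finset (Fin n)) :
    ip (PL (fun i => fun y => conj (MM A B (f i) y)) Finset.univ)
      (PL (fun y : Fin n ⊕ Fin n => (Pi.single y 1 : Fin n ⊕ Fin n → ℂ)) (S.disjSum T)) =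
      (B a 0 ^ S.card * B a 1 ^ T.card) * ip (PL w Finset.univ) (PL w S * PL w T) := by
  rw [ip_scale (fun i => fun y => conj (MM A B (f i) y))
    (fun y : Fin n ⊕ Fin n => (Pi.single y 1 : Fin n ⊕ Fin n → ℂ)) w (Sum.elim w w)
    (Sum.elim (fun _ => B a 0) (fun _ => B a 1)) Finset.univ (S.disjSum T)]
  · rw [PL_disjSum, Finset.prod_disjSum]
    simp
  · intro i _ y _
    have h1 : dot (fun y => conj (MM A B (f i) y)) (Pi.single y 1 : Fin n ⊕ Fin n → ℂ) =
        MM A B (f i) y := by
      unfold dot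
      rw [Finset.sum_eq_single y]
      · simp
      · intro z _ hz
        simp [Pi.single_apply, hz]
      · simp
    rw [h1]
    unfold MM
    rw [Matrix.submatrix_apply, hf]
    rcases y with j | j
    · simp only [Sum.elim_inl]
      rw [← hw i j]
      change A i j * B a 0 = _
      ring
    · simp only [Sum.elim_inr]
      rw [← hw i j]
      change A i j * B a 1 = _
      ring

theorem kron_expansion (hw : ∀ i j, A i j = dot (w i) (w j)) :
    (Matrix.kronecker A B).permanent = ∑ S' : Finset (Fin n), ∑ S : Finset (Fin n),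
      (B 0 0 ^ (n - S'.card) * B 0 1 ^ S.card * (B 1 0 ^ S'.card * B 1 1 ^ (n - S.card))) *
        conj (hh w S S' * hh w S' S) := by
  rw [← permanent_submatrix_equiv (eqv n) (Matrix.kronecker A B)]
  change (MM A B).permanent = _
  have h0 : (MM A B).permanent =
      ip (PL (fun x : Fin n ⊕ Fin n => fun y => conj (MM A B x y)) Finset.univ)
        (PL (fun y : Fin n ⊕ Fin n => (Pi.single y 1 : Fin n ⊕ Fin n → ℂ)) Finset.univ) := by
    rw [wick']
    congr 1
    ext x y
    rw [Matrix.of_apply]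
    unfold dot
    rw [Finset.sum_eq_single y]
    · simp
    · intro z _ hz
      simp [Pi.single_apply, hz]
    · simp
  have h1 : PL (fun x : Fin n ⊕ Fin n => fun y => conj (MM A B x y)) Finset.univ =
      PL (fun i : Fin n => fun y => conj (MM A B (Sum.inl i) y)) Finset.univ *
      PL (fun i : Fin n => fun y => conj (MM A B (Sum.inr i) y)) Finset.univ := by
    unfold PL
    rw [Fintype.prod_sum_type]
  rw [h0, h1, ip_mul_PL, Finset.powerset_univ]
  rw [← (Finset.sumEquiv (α := Fin n) (β := Fin n)).symm.toEquiv.sum_comp, Fintype.sum_prod_type]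
  rw [← (Equiv.sum_comp (Function.Involutive.toPerm (compl : Finset (Fin n) → Finset (Fin n))
    compl_involutive))]
  refine Finset.sum_congr rfl fun S' _ => Finset.sum_congr rfl fun S _ => ?_
  have e1 : ((Finset.sumEquiv (α := Fin n) (β := Fin n)).symm.toEquiv
      ((Function.Involutive.toPerm (compl : Finset (Fin n) → Finset (Fin n))
        compl_involutive) S', S)) = (S'ᶜ).disjSum S := rfl
  have e2 : (Finset.univ : Finset (Fin n ⊕ Fin n)) \ (S'ᶜ).disjSum S = S'.disjSum Sᶜ := by
    ext x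
    rcases x with x | x <;> simp
  rw [e1, e2, row_expansion A B w hw 0 Sum.inl (fun i => rfl),
    row_expansion A B w hw 1 Sum.inr (fun i => rfl)]
  rw [Finset.card_compl, Finset.card_compl, Fintype.card_fin]
  unfold hh
  rw [map_mul, ip_conj, ip_conj, mul_comm (PL w S'ᶜ) (PL w S)]
  ring

theorem kron_sum (hw : ∀ i j, A i j = dot (w i) (w j)) :
    (Matrix.kronecker A B).permanent = ∑ m ∈ Finset.range (n + 1),
      (B 0 0 * B 1 1) ^ (n - m) * (B 0 1 * B 1 0) ^ m *
      conj (∑ S ∈ Finset.powersetCard m (Finset.univ : Finset (Fin n)),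
      ∑ S' ∈ Finset.powersetCard m (Finset.univ : Finset (Fin n)), hh w S S' * hh w S' S) := by
  rw [kron_expansion A B w hw, Finset.sum_comm, ← Finset.powerset_univ, Finset.sum_powerset,
    Finset.card_univ, Fintype.card_fin]
  refine Finset.sum_congr rfl fun m _ => ?_
  rw [map_sum, Finset.mul_sum]
  refine Finset.sum_congr rfl fun S hS => ?_
  rw [map_sum, Finset.mul_sum, Finset.powerset_univ]
  have hSm : S.card = m := (Finset.mem_powersetCard.mp hS).2
  symm
  refine (Finset.sum_congr rfl fun S' hS' => ?_).trans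
    (Finset.sum_subset (Finset.subset_univ _) fun S' _ hS' => ?_)
  · have hS'm : S'.card = m := (Finset.mem_powersetCard.mp hS').2
    rw [hSm, hS'm, mul_pow, mul_pow]
    ring
  · rw [hh_card w S S', zero_mul, map_zero, mul_zero]
    intro h
    exact hS' (Finset.mem_powersetCard.mpr ⟨Finset.subset_univ _, by rw [← h, hSm]⟩)

end main

theorem perm_two (B : Matrix (Fin 2) (Fin 2) ℂ) :
    B.permanent = B 0 0 * B 1 1 + B 0 1 * B 1 0 := by
  rw [permanent_succ_column_zero, Fin.sum_univ_two]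
  rw [Matrix.permanent_unique, Matrix.permanent_unique]
  simp only [Matrix.submatrix_apply]
  have h1 : (0 : Fin 2).succAbove (default : Fin 1) = 1 := rfl
  have h2 : (1 : Fin 2).succAbove (default : Fin 1) = 0 := rfl
  have h3 : Fin.succ (default : Fin 1) = 1 := rfl
  rw [h1, h2, h3]
  ring

theorem kron_two (n : ℕ) (A : Matrix (Fin n) (Fin n) ℂ) (B : Matrix (Fin 2) (Fin 2) ℂ)
    (hA : A.PosSemidef) (hB : B.PosSemidef) :
    A.permanent ^ 2 * B.permanent ^ n ≤ (Matrix.kronecker A B).permanent := by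
  obtain ⟨w, hw⟩ := exists_factor A hA
  have hpA : A.permanent = (nrm (PL w Finset.univ) : ℂ) := by
    rw [← ip_self, wick']
    congr 1
    ext i j
    exact hw i j
  obtain ⟨a, ha⟩ : ∃ a : ℝ, B 0 0 = (a : ℂ) ∧ 0 ≤ a := by
    have h := hB.diag_nonneg (i := (0 : Fin 2))
    rw [Complex.le_def] at h
    exact ⟨(B 0 0).re, Complex.ext rfl (by simpa using h.2.symm), by simpa using h.1⟩
  obtain ⟨d, hd⟩ : ∃ d : ℝ, B 1 1 = (d : ℂ) ∧ 0 ≤ d := by
    have h := hB.diag_nonneg (i := (1 : Fin 2))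
    rw [Complex.le_def] at h
    exact ⟨(B 1 1).re, Complex.ext rfl (by simpa using h.2.symm), by simpa using h.1⟩
  have ht : B 0 1 * B 1 0 = (Complex.normSq (B 0 1) : ℂ) := by
    rw [← Complex.mul_conj, ← hB.1.apply 1 0, RCLike.star_def]
  set t : ℝ := Complex.normSq (B 0 1) with htdef
  have ht0 : 0 ≤ t := Complex.normSq_nonneg _
  have hcoef : ∀ m : ℕ, ∃ f : ℝ, m ∈ Finset.range (n + 1) →
      (∑ S ∈ Finset.powersetCard m (Finset.univ : Finset (Fin n)),
      ∑ S' ∈ Finset.powersetCard m (Finset.univ : Finset (Fin n)), hh w S S' * hh w S' S) = (f : ℂ) ∧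
      (n.choose m : ℝ) * (nrm (PL w Finset.univ)) ^ 2 ≤ f := by
    intro m
    by_cases hm : m ≤ n
    · obtain ⟨f, hf⟩ := block_coeff w m hm
      exact ⟨f, fun _ => hf⟩
    · exact ⟨0, fun h => absurd (Finset.mem_range.mp h) (by omega)⟩
  choose f hf using hcoef
  have hR : (Matrix.kronecker A B).permanent =
      ((∑ m ∈ Finset.range (n + 1), (a * d) ^ (n - m) * t ^ m * f m : ℝ) : ℂ) := by
    rw [kron_sum A B w hw]
    push_cast
    refine Finset.sum_congr rfl fun m hm => ?_
    rw [(hf m hm).1, Complex.conj_ofReal, ht, ha.1, hd.1]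
  have hL : A.permanent ^ 2 * B.permanent ^ n =
      ((∑ m ∈ Finset.range (n + 1), (a * d) ^ (n - m) * t ^ m *
        ((n.choose m : ℝ) * (nrm (PL w Finset.univ)) ^ 2) : ℝ) : ℂ) := by
    rw [perm_two, ht, ha.1, hd.1, hpA, add_comm, add_pow]
    push_cast
    rw [Finset.mul_sum]
    refine Finset.sum_congr rfl fun m _ => ?_
    ring
  rw [hR, hL]
  have : (∑ m ∈ Finset.range (n + 1), (a * d) ^ (n - m) * t ^ m *
        ((n.choose m : ℝ) * (nrm (PL w Finset.univ)) ^ 2) : ℝ) ≤
      ∑ m ∈ Finset.range (n + 1), (a * d) ^ (n - m) * t ^ m * f m :=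
    Finset.sum_le_sum fun m hm => mul_le_mul_of_nonneg_left (hf m hm).2
      (mul_nonneg (pow_nonneg (mul_nonneg ha.2 hd.2) _) (pow_nonneg ht0 _))
  exact_mod_cast this

end Pool.Agent.H709K
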